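import Pool.Agent.W205.K5.Stm0

set_option autoImplicit false

namespace Pool.Agent.W958.K5

open Pool.Agent.W205.K5

lemma uni_aux {e : ℕ} {x C β : ℝ} (hx : 0 < x) :
    x + β * x ^ (-(e : ℤ)) ≤ C ↔ β ≤ x ^ e * (C - x) := by
  have h : 0 < x ^ e := pow_pos hx e
  rw [zpow_neg, zpow_natCast]
  constructor
  · intro h1
    have h2 : β * (x ^ e)⁻¹ ≤ C - x := by linarith
    have h3 := mul_le_mul_of_nonneg_left h2 h.le
    have h4 : x ^ e * (β * (x ^ e)⁻¹) = β := by field_simp
    rw [h4] at h3
    exact h3
  · intro h1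
    have h3 := mul_le_mul_of_nonneg_right h1 (inv_pos.mpr h).le
    have h4 : x ^ e * (C - x) * (x ^ e)⁻¹ = C - x := by field_simp
    rw [h4] at h3
    linarith

theorem uni : S_UNI := by
  intro e a t b C β ha hat htb hβ h1 h2
  rcases Nat.eq_zero_or_pos e with he | he
  · subst he
    simp only [pow_zero, one_mul] at h1 h2 ⊢
    linarith
  · rcases ha.eq_or_lt with h0 | h0
    · subst h0
      rw [zero_pow (by omega), zero_mul] at h1
      have hb0 : β = 0 := le_antisymm h1 hβ
      subst hb0
      rcases (hat.trans htb).eq_or_lt with hb | hb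
      · subst hb
        have : t = 0 := le_antisymm htb hat
        subst this
        rw [zero_pow (by omega), zero_mul]
      · have h3 : 0 ≤ C - b := by
          by_contra hcon
          push Not at hcon
          have := mul_neg_of_pos_of_neg (pow_pos hb e) hcon
          linarith
        exact mul_nonneg (pow_nonneg hat e) (by linarith)
    · have ht : 0 < t := h0.trans_le hat
      have hb : 0 < b := ht.trans_le htb
      rw [← uni_aux h0] at h1
      rw [← uni_aux hb] at h2
      rw [← uni_aux ht]
      have hconv : ConvexOn ℝ (Set.Ioi (0:ℝ)) (fun x : ℝ => x + β * x ^ (-(e : ℤ))) := by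
        have c1 : ConvexOn ℝ (Set.Ioi (0:ℝ)) (fun x : ℝ => x) := convexOn_id (convex_Ioi 0)
        have c2 : ConvexOn ℝ (Set.Ioi (0:ℝ)) (fun x : ℝ => β * x ^ (-(e : ℤ))) :=
          (convexOn_zpow (-(e : ℤ))).smul hβ
        exact c1.add c2
      have := hconv.le_max_of_mem_Icc (x := a) (y := b) (z := t) h0 hb ⟨hat, htb⟩
      exact this.trans (max_le h1 h2)

end Pool.Agent.W958.K5
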